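import Pool.Agent.Helper69.AS.St

/-! Module MV of project AS (MP_d112a4_gt): area mean value property. -/

set_option autoImplicit false

namespace Pool.Agent.Helper40.AS
open Pool.Agent.Helper35.PM Pool.Agent.Helper69.AS
open Filter Topology Matrix Set MeasureTheory
open scoped ENNReal ComplexOrder

theorem inner_mv (G : ℂ → ℂ) (hG : DifferentiableOn ℂ G (Metric.ball 0 1)) (c : ℂ) (ρ : ℝ)
    (hρ : 0 < ρ) (hc : ‖c‖ + ρ < 1) :
    ∫ θ in Ioo (-Real.pi) Real.pi, G (circleMap c ρ θ) = (2 * Real.pi) • G c := by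
  have hsub : Metric.closedBall c ρ ⊆ Metric.ball 0 1 := by
    intro z hz
    rw [Metric.mem_closedBall, dist_eq_norm] at hz
    rw [mem_ball_zero_iff]
    calc ‖z‖ = ‖(z - c) + c‖ := by rw [sub_add_cancel]
      _ ≤ ‖z - c‖ + ‖c‖ := norm_add_le _ _
      _ < 1 := by linarith
  have hd : DiffContOnCl ℂ G (Metric.ball c |ρ|) := by
    rw [abs_of_pos hρ]
    refine ⟨hG.mono (Metric.ball_subset_closedBall.trans hsub), ?_⟩
    rw [closure_ball c hρ.ne']
    exact hG.continuousOn.mono hsub
  have h1 := hd.circleAverage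
  rw [Real.circleAverage] at h1
  have h2 : ∫ θ in (0 : ℝ)..2 * Real.pi, G (circleMap c ρ θ) = (2 * Real.pi) • G c := by
    rw [← h1, smul_smul, mul_inv_cancel₀ (by positivity), one_smul]
  have t₀ : (fun θ => G (circleMap c ρ θ)).Periodic (2 * Real.pi) :=
    fun x => by simp [periodic_circleMap c ρ x]
  have h3 := t₀.intervalIntegral_add_eq (-Real.pi) 0
  rw [zero_add, h2, show -Real.pi + 2 * Real.pi = Real.pi by ring] at h3
  rw [← h3, intervalIntegral.integral_of_le (by linarith [Real.pi_pos]),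
    integral_Ioc_eq_integral_Ioo]

theorem area_mv (G : ℂ → ℂ) (hG : DifferentiableOn ℂ G (Metric.ball 0 1)) (c : ℂ) (r : ℝ)
    (hr : 0 < r) (hc : ‖c‖ + r < 1) :
    ∫ ζ in Metric.ball c r, G ζ = (Real.pi * r ^ 2) • G c := by
  have h1 : ∫ ζ in Metric.ball c r, G ζ = ∫ z, (Metric.ball (0 : ℂ) r).indicator (fun z => G (c + z)) z := by
    rw [← integral_indicator Metric.isOpen_ball.measurableSet, ← integral_add_left_eq_self _ c]
    congr 1
    ext z
    by_cases hz : z ∈ Metric.ball (0 : ℂ) r
    · rw [indicator_of_mem hz, indicator_of_mem]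
      simpa [Metric.mem_ball, dist_eq_norm] using hz
    · rw [indicator_of_notMem hz, indicator_of_notMem]
      simpa [Metric.mem_ball, dist_eq_norm] using hz
  have hcm : ∀ p : ℝ × ℝ, c + Complex.polarCoord.symm p = circleMap c p.1 p.2 := by
    intro p
    rw [Complex.polarCoord_symm_apply, circleMap, Complex.exp_mul_I]
    push_cast
    ring
  have h2 : ∫ z, (Metric.ball (0 : ℂ) r).indicator (fun z => G (c + z)) z =
      ∫ p in Ioo (0 : ℝ) r ×ˢ Ioo (-Real.pi) Real.pi, p.1 • G (circleMap c p.1 p.2) := by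
    rw [← Complex.integral_comp_polarCoord_symm,
      ← integral_indicator polarCoord.open_target.measurableSet,
      ← integral_indicator (measurableSet_Ioo.prod measurableSet_Ioo)]
    congr 1
    ext p
    by_cases hp : p ∈ polarCoord.target
    · have hp' : 0 < p.1 ∧ p.2 ∈ Ioo (-Real.pi) Real.pi := by
        simpa [polarCoord] using hp
      rw [indicator_of_mem hp]
      by_cases hpr : p.1 < r
      · rw [indicator_of_mem, indicator_of_mem, hcm]
        · exact ⟨⟨hp'.1, hpr⟩, hp'.2⟩
        · rw [mem_ball_zero_iff, Complex.norm_polarCoord_symm, abs_of_pos hp'.1]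
          exact hpr
      · rw [indicator_of_notMem, indicator_of_notMem, smul_zero]
        · exact fun h => hpr h.1.2
        · rw [mem_ball_zero_iff, Complex.norm_polarCoord_symm, abs_of_pos hp'.1]
          exact hpr
    · rw [indicator_of_notMem hp, indicator_of_notMem]
      intro h
      apply hp
      have : 0 < p.1 ∧ p.2 ∈ Ioo (-Real.pi) Real.pi := ⟨h.1.1, h.2⟩
      simpa [polarCoord] using this
  have hmem : ∀ p ∈ Icc (0 : ℝ) r ×ˢ Icc (-Real.pi) Real.pi, circleMap c p.1 p.2 ∈ Metric.ball (0 : ℂ) 1 := by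
    intro p hp
    rw [mem_ball_zero_iff, circleMap]
    have h0 : ‖(p.1 : ℂ) * Complex.exp (p.2 * Complex.I)‖ = p.1 := by
      rw [norm_mul, Complex.norm_exp_ofReal_mul_I, mul_one, Complex.norm_real, Real.norm_eq_abs,
        abs_of_nonneg hp.1.1]
    have h00 := norm_add_le c ((p.1 : ℂ) * Complex.exp (p.2 * Complex.I))
    have := hp.1.2
    linarith
  have hcont : ContinuousOn (fun p : ℝ × ℝ => p.1 • G (circleMap c p.1 p.2))
      (Icc (0 : ℝ) r ×ˢ Icc (-Real.pi) Real.pi) := by
    refine continuousOn_fst.smul (hG.continuousOn.comp ?_ hmem)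
    unfold circleMap
    fun_prop
  have hint : IntegrableOn (fun p : ℝ × ℝ => p.1 • G (circleMap c p.1 p.2))
      (Ioo (0 : ℝ) r ×ˢ Ioo (-Real.pi) Real.pi) :=
    (hcont.integrableOn_compact (isCompact_Icc.prod isCompact_Icc)).mono_set
      (prod_mono Ioo_subset_Icc_self Ioo_subset_Icc_self)
  rw [h1, h2, Measure.volume_eq_prod, setIntegral_prod _ (by rw [← Measure.volume_eq_prod]; exact hint)]
  have h3 : ∫ x in Ioo (0 : ℝ) r, ∫ y in Ioo (-Real.pi) Real.pi, x • G (circleMap c x y) =
      ∫ x in Ioo (0 : ℝ) r, x • ((2 * Real.pi) • G c) := by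
    refine setIntegral_congr_fun measurableSet_Ioo fun x hx => ?_
    rw [integral_smul, inner_mv G hG c x hx.1 (by linarith [hx.2])]
  simp only at h3 ⊢
  rw [h3, integral_smul_const, ← integral_Ioc_eq_integral_Ioo, ← intervalIntegral.integral_of_le hr.le,
    integral_id, smul_smul]
  congr 1
  ring

theorem hMV : StMV := by
  intro G hG c r hr hc
  have hsub : Metric.closedBall c r ⊆ Metric.ball 0 1 := by
    intro z hz
    rw [Metric.mem_closedBall, dist_eq_norm] at hz
    rw [mem_ball_zero_iff]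
    calc ‖z‖ = ‖(z - c) + c‖ := by rw [sub_add_cancel]
      _ ≤ ‖z - c‖ + ‖c‖ := norm_add_le _ _
      _ < 1 := by linarith
  have hI : IntegrableOn G (Metric.ball c r) :=
    ((hG.continuousOn.mono hsub).integrableOn_compact (isCompact_closedBall c r)).mono_set
      Metric.ball_subset_closedBall
  refine ⟨hI.re, ?_⟩
  have h1 : ∫ ζ in Metric.ball c r, (G ζ).re = (∫ ζ in Metric.ball c r, G ζ).re :=
    integral_re hI
  have hv : volume.real (Metric.ball c r) = Real.pi * r ^ 2 := by
    rw [Measure.real, Complex.volume_ball]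
    rw [ENNReal.toReal_mul, ENNReal.toReal_pow, ENNReal.toReal_ofReal hr.le]
    simp [mul_comm]
  rw [setAverage_eq, h1, area_mv G hG c r hr hc, hv, Complex.real_smul, Complex.re_ofReal_mul, smul_eq_mul,
    ← mul_assoc, inv_mul_cancel₀ (by positivity), one_mul]

end Pool.Agent.Helper40.AS
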